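import Mathlib
import Pool.Agent.helper99.MB.Amb

/-!
# Geodesics crossing many bridges are Morse (module E of MP_1d7d98_al)
-/

set_option autoImplicit false

namespace Pool.Agent.helper82.MB

open Pool.Agent.helper99.LC Pool.Agent.helper99.MB

/-- A separating edge `{u, v}`. -/
def SepEdge {Γ : Type} (d : Γ → Γ → ℕ) (u v : Γ) : Prop :=
  ∃ L : Set Γ, u ∈ L ∧ v ∉ L ∧ ∀ y ∈ L, ∀ z ∉ L, d y z = d y u + 1 + d v z

/-- reversed quasi-geodesics -/
theorem qg_rev {G : Type} [Group G] {S : Set G} (hS : Subgroup.closure S = ⊤) {lam eps : ℝ}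
    {m : ℕ} {q : ℕ → G} (h : IsQG S lam eps m q) : IsQG S lam eps m (fun s => q (m - s)) := by
  intro i j hij hj
  have h1 := h (m - j) (m - i) (by omega) (by omega)
  have e : (((m - i : ℕ) : ℝ) - ((m - j : ℕ) : ℝ)) = (j : ℝ) - i := by
    rw [Nat.cast_sub (by omega), Nat.cast_sub hj]; ring
  rw [e] at h1
  rw [wd_comm hS]
  exact h1

/-- a discrete intermediate value property -/
theorem cross (P : ℕ → Prop) {a b : ℕ} (hab : a ≤ b) (ha : P a) (hb : ¬ P b) :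
    ∃ k, a ≤ k ∧ k < b ∧ P k ∧ ¬ P (k + 1) := by
  by_contra hcon
  push Not at hcon
  have key : ∀ n, a + n ≤ b → P (a + n) := by
    intro n
    induction n with
    | zero => intro _; exact ha
    | succ n ih =>
      intro hn
      exact hcon (a + n) (by omega) (by omega) (ih (by omega))
  apply hb
  have := key (b - a) (by omega)
  rwa [Nat.add_sub_cancel' hab] at this

section

variable {G : Type} [Group G] {S : Set G} (hS : Subgroup.closure S = ⊤)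

include hS

theorem side_left {I : Set ℕ} {γ : ℕ → G} (hI : ∀ i j, i ≤ j → j ∈ I → i ∈ I)
    (hγ : GeodOn S I γ) {t : ℕ} (ht : t + 1 ∈ I) {L : Set G} (hu : γ t ∈ L)
    (hL : ∀ y ∈ L, ∀ z ∉ L, wd S y z = wd S y (γ t) + 1 + wd S (γ (t + 1)) z)
    {s : ℕ} (hs : s ≤ t) : γ s ∈ L := by
  by_contra hcon
  have h1 := hL _ hu _ hcon
  rw [wd_self, wd_comm hS (γ (t + 1)), wd_comm hS (γ t), hγ s t hs (hI _ _ (by omega) ht),
    hγ s (t + 1) (by omega) ht] at h1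
  omega

theorem side_right {I : Set ℕ} {γ : ℕ → G}
    (hγ : GeodOn S I γ) {t : ℕ} {L : Set G} (hv : γ (t + 1) ∉ L)
    (hL : ∀ y ∈ L, ∀ z ∉ L, wd S y z = wd S y (γ t) + 1 + wd S (γ (t + 1)) z)
    {s : ℕ} (hs : t + 1 ≤ s) (hsI : s ∈ I) : γ s ∉ L := by
  intro hcon
  have h1 := hL _ hcon _ hv
  rw [wd_self, wd_comm hS _ (γ (t + 1)), wd_comm hS _ (γ t), hγ (t + 1) s hs hsI,
    hγ t s (by omega) hsI] at h1
  omega

omit hS in
/-- crossing a separating edge -/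
theorem near_edge {lam eps : ℝ} {m : ℕ} {q : ℕ → G} (hq : IsQG S lam eps m q) {u v : G}
    {L : Set G} (hL : ∀ y ∈ L, ∀ z ∉ L, wd S y z = wd S y u + 1 + wd S v z) {a b : ℕ}
    (hab : a ≤ b) (hb : b ≤ m) (ha : q a ∈ L) (hb' : q b ∉ L) :
    ∃ k, a ≤ k ∧ k ≤ b ∧ (wd S (q k) u : ℝ) ≤ lam + eps := by
  obtain ⟨k, h1, h2, h3, h4⟩ := cross (fun k => q k ∈ L) hab ha hb'
  refine ⟨k, h1, by omega, ?_⟩
  have h5 := hL _ h3 _ h4
  have h6 := (hq k (k + 1) (by omega) (by omega)).2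
  have h7 : wd S (q k) u ≤ wd S (q k) (q (k + 1)) := by omega
  have h8 : (wd S (q k) u : ℝ) ≤ (wd S (q k) (q (k + 1)) : ℝ) := by exact_mod_cast h7
  push_cast at h6
  linarith

/-- the Morse property of geodesics with many separating edges, one direction -/
theorem morse_aux (K : ℕ) {I : Set ℕ} {γ : ℕ → G} (hI : ∀ i j, i ≤ j → j ∈ I → i ∈ I)
    (hγ : GeodOn S I γ)
    (hsep : ∀ t, t + K + 1 ∈ I → ∃ i, t ≤ i ∧ i ≤ t + K ∧ SepEdge (wd S) (γ i) (γ (i + 1)))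
    {lam eps : ℝ} (hlam : 1 ≤ lam) (heps : 0 ≤ eps) {m : ℕ} {q : ℕ → G}
    (hq : IsQG S lam eps m q) {i0 j0 : ℕ} (hj : j0 ∈ I) (hij : i0 ≤ j0)
    (h0 : q 0 = γ i0) (hm : q m = γ j0) {k : ℕ} (hk : k ≤ m) :
    ∃ i ∈ I, (wd S (q k) (γ i) : ℝ) ≤
      lam * (lam * (2 * (lam + eps) + K + 1 + eps)) + eps + (lam + eps) := by
  classical
  have hC : 0 ≤ lam + eps := by linarith
  -- the last good position
  let R : ℕ → Prop := fun s => i0 ≤ s ∧ ∃ k1 ≤ k, (wd S (q k1) (γ s) : ℝ) ≤ lam + eps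
  have hR0 : R i0 := ⟨le_rfl, 0, Nat.zero_le _, by rw [h0, wd_self]; simpa using hC⟩
  obtain ⟨hs1, k1, hk1, hd1⟩ : R (Nat.findGreatest R j0) := Nat.findGreatest_spec hij hR0
  have hmax : ∀ s, Nat.findGreatest R j0 < s → s ≤ j0 → ¬ R s := fun s h h' =>
    Nat.findGreatest_is_greatest h h'
  set s1 := Nat.findGreatest R j0 with hs1def
  have hs1j : s1 ≤ j0 := Nat.findGreatest_le j0
  have hs1I : s1 ∈ I := hI _ _ hs1j hj
  -- the next position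
  obtain ⟨s2, h12, h2j, h2K, k2, hk2, hk2m, hd2⟩ : ∃ s2, s1 ≤ s2 ∧ s2 ≤ j0 ∧ s2 ≤ s1 + K + 1 ∧
      ∃ k2, k ≤ k2 ∧ k2 ≤ m ∧ (wd S (q k2) (γ s2) : ℝ) ≤ lam + eps := by
    by_cases hc : j0 ≤ s1 + K + 1
    · exact ⟨j0, hs1j, le_rfl, hc, m, hk, le_rfl, by rw [hm, wd_self]; simpa using hC⟩
    · obtain ⟨t, ht1, ht2, L, hu, hv, hL⟩ :=
        hsep (s1 + 1) (hI _ _ (show s1 + 1 + K + 1 ≤ j0 by omega) hj)
      have htI : t + 1 ∈ I := hI _ _ (show t + 1 ≤ j0 by omega) hj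
      have hleft := side_left hS hI hγ htI hu hL (s := i0) (by omega)
      have hright := side_right hS hγ hv hL (s := j0) (by omega) hj
      have hqk : q k ∈ L := by
        by_contra hcon
        obtain ⟨k', h1, h2, h3⟩ := near_edge hq hL (Nat.zero_le k) hk (h0 ▸ hleft) hcon
        exact hmax t (by omega) (by omega) ⟨by omega, k', h2, h3⟩
      obtain ⟨k', h1, h2, h3⟩ := near_edge hq hL hk le_rfl hqk (hm ▸ hright)
      exact ⟨t, by omega, by omega, by omega, k', h1, h2, h3⟩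
  refine ⟨s1, hs1I, ?_⟩
  have g1 : (wd S (q k1) (q k2) : ℝ) ≤ 2 * (lam + eps) + K + 1 := by
    have t1 := wd_tri hS (q k1) (γ s1) (q k2)
    have t2 := wd_tri hS (γ s1) (γ s2) (q k2)
    rw [hγ s1 s2 h12 (hI _ _ h2j hj), wd_comm hS (γ s2)] at t2
    have t3 : wd S (q k1) (q k2) ≤ wd S (q k1) (γ s1) + (K + 1) + wd S (q k2) (γ s2) := by omega
    have t4 : (wd S (q k1) (q k2) : ℝ) ≤ wd S (q k1) (γ s1) + (K + 1) + wd S (q k2) (γ s2) := by
      exact_mod_cast t3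
    linarith
  have g2 := (hq k1 k2 (by omega) hk2m).1
  have hlam0 : 0 < lam := by linarith
  have g3 : ((k2 : ℝ) - k1) ≤ lam * (2 * (lam + eps) + K + 1 + eps) := by
    have : ((k2 : ℝ) - k1) / lam ≤ 2 * (lam + eps) + K + 1 + eps := by linarith
    rw [div_le_iff₀ hlam0] at this
    linarith
  have g4 := (hq k1 k hk1 hk).2
  have g5 : ((k : ℝ) - k1) ≤ (k2 : ℝ) - k1 := by
    have : (k : ℝ) ≤ k2 := by exact_mod_cast hk2
    linarith
  have g6 : lam * ((k : ℝ) - k1) ≤ lam * (lam * (2 * (lam + eps) + K + 1 + eps)) :=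
    mul_le_mul_of_nonneg_left (by linarith) hlam0.le
  have t1 : (wd S (q k) (γ s1) : ℝ) ≤ wd S (q k) (q k1) + wd S (q k1) (γ s1) := by
    exact_mod_cast wd_tri hS (q k) (q k1) (γ s1)
  rw [wd_comm hS (q k) (q k1)] at t1
  linarith

/-- geodesics with many separating edges are Morse -/
theorem morse_of_sep (K : ℕ) : ∃ N : Gauge, ∀ (I : Set ℕ) (γ : ℕ → G),
    (∀ i j, i ≤ j → j ∈ I → i ∈ I) → GeodOn S I γ →
    (∀ t, t + K + 1 ∈ I → ∃ i, t ≤ i ∧ i ≤ t + K ∧ SepEdge (wd S) (γ i) (γ (i + 1))) →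
    MorseOn S N I γ := by
  refine ⟨fun lam eps => Real.toNNReal
    (lam * (lam * (2 * (lam + eps) + K + 1 + eps)) + eps + (lam + eps)), ?_⟩
  intro I γ hI hγ hsep lam eps hlam heps m q hq ⟨i, hi, hqi⟩ ⟨j, hj, hqj⟩ k hk
  rcases le_total i j with hij | hij
  · obtain ⟨s, hs, hle⟩ := morse_aux hS K hI hγ hsep hlam heps hq hj hij hqi hqj hk
    exact ⟨s, hs, hle.trans (Real.le_coe_toNNReal _)⟩
  · obtain ⟨s, hs, hle⟩ := morse_aux hS K hI hγ hsep hlam heps (qg_rev hS hq) hi hij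
      (by simpa using hqj) (by simpa using hqi) (k := m - k) (by omega)
    refine ⟨s, hs, ?_⟩
    have e : m - (m - k) = k := by omega
    simp only [e] at hle
    exact hle.trans (Real.le_coe_toNNReal _)

end

variable {W Γ : Type} [Group W] [Group Γ] (X : Amb W Γ)

/-- `c`-edges separate -/
theorem sep_of_isC (hS : Subgroup.closure X.S = ⊤)
    (bridge : ∀ g y z : Γ, X.F.a0 (g⁻¹ * y) ≤ 0 → 1 ≤ X.F.a0 (g⁻¹ * z) →
      wd X.S y z = wd X.S y g + 1 + wd X.S (g * X.F.c) z) {u v : Γ} (h : X.IsC u v) :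
    SepEdge (wd X.S) u v := by
  have hc : X.F.a0 X.F.c = 1 := by
    have := X.F.a0_c 1
    rwa [zpow_one] at this
  rcases h with rfl | rfl
  · refine ⟨{y | X.F.a0 (u⁻¹ * y) ≤ 0}, ?_, ?_, ?_⟩
    · show X.F.a0 (u⁻¹ * u) ≤ 0
      rw [inv_mul_cancel, X.F.a0_one]
    · show ¬ X.F.a0 (u⁻¹ * (u * X.F.c)) ≤ 0
      rw [inv_mul_cancel_left, hc]; omega
    · intro y hy z hz
      have hz' : ¬ X.F.a0 (u⁻¹ * z) ≤ 0 := hz
      exact bridge u y z hy (by omega)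
  · refine ⟨{y | 1 ≤ X.F.a0 (v⁻¹ * y)}, ?_, ?_, ?_⟩
    · show 1 ≤ X.F.a0 (v⁻¹ * (v * X.F.c))
      rw [inv_mul_cancel_left, hc]
    · show ¬ 1 ≤ X.F.a0 (v⁻¹ * v)
      rw [inv_mul_cancel, X.F.a0_one]; omega
    · intro y hy z hz
      have hz' : ¬ 1 ≤ X.F.a0 (v⁻¹ * z) := hz
      have := bridge v z y (by omega) hy
      rw [wd_comm hS y z, this, wd_comm hS z v, wd_comm hS (v * X.F.c) y]
      omega

/-- MODULE E: geodesics without long pieces free of `c`-edges are Morse. -/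
theorem morse_of_tight (hS : Subgroup.closure X.S = ⊤)
    (bridge : ∀ g y z : Γ, X.F.a0 (g⁻¹ * y) ≤ 0 → 1 ≤ X.F.a0 (g⁻¹ * z) →
      wd X.S y z = wd X.S y g + 1 + wd X.S (g * X.F.c) z) (K : ℕ) :
    ∃ N : Gauge, ∀ (I : Set ℕ) (γ : ℕ → Γ), (∀ i j, i ≤ j → j ∈ I → i ∈ I) →
      GeodOn X.S I γ → X.Tight K I γ → MorseOn X.S N I γ := by
  obtain ⟨N, hN⟩ := morse_of_sep hS K
  refine ⟨N, fun I γ hI hγ hT => hN I γ hI hγ fun t ht => ?_⟩
  obtain ⟨i, h1, h2, h3⟩ := hT t ht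
  exact ⟨i, h1, h2, sep_of_isC X hS bridge h3⟩

end Pool.Agent.helper82.MB
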